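import Pool.Agent.W684.FM.Ambient
import Pool.Agent.K1H57.MATools
import Pool.Agent.Results.MP_1ca5ad_gt.Independence

set_option autoImplicit false

/-!
# MP_1ca5ad_gt, Q1, negated form: consistently, `C_p(X)` is `F`-separable and not Frechet-Urysohn

Part (A): over every ground model some notion of forcing preserves cardinals and forces Martin's
axiom for `ℵ₁` dense sets. Part (B), in ZFC: this axiom implies the negated form of Q1: for the
discrete space `X` of cardinality `ℵ₁` the space `C_p(X)` is `F`-separable and not Frechet-Urysohn.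
-/

namespace Pool.Agent.Results.MP_1ca5ad_gt.Consistent

open Cardinal Pool.Agent.W684 Pool.Agent.W684.FM Pool.Agent.Helper669.Forcing
open Pool.Agent.R634.FSep

universe u

theorem result :
    ((∃ (P : Type) (_ : Preorder P), Nonempty P ∧ ∀ p : P,
        p ∈ CardinalsPreserved.{0, 0} P ∧ p ∈ OmegaOnePreserved P ∧ p ∈ MartinHolds P Om1) ∧
      (MartinFor Om1 ↔ MartinAxiomAleph1)) ∧
    (MartinAxiomAleph1 → ¬ Question.{u} ∧
      ∀ (X : Type) [TopologicalSpace X] [DiscreteTopology X], #X = ℵ₁ →
        FSeparable (Cp X) ∧ ¬ FrechetUrysohn (Cp X)) := by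
  refine ⟨⟨Pool.Agent.W684.FM.exists_forcing Om1, martinFor_om1_iff⟩, fun hMA => ?_⟩
  have hp : OmegaOneLtP := by
    intro F hF hS
    obtain ⟨A, hA, hA2⟩ := Pool.Agent.K1H57.MATools.exists_pseudo
      (martinAxiomAleph1_iff.1 hMA) (aleph0_le_aleph 1) (X := F) hF (fun B => B.1) (by
        intro a
        have h1 := hS (a.map (Function.Embedding.subtype _)) (by
          intro B hB
          rw [Finset.mem_coe, Finset.mem_map] at hB
          obtain ⟨B', -, rfl⟩ := hB
          exact B'.2)
        refine h1.mono ?_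
        intro n hn
        refine Set.mem_iInter₂.2 fun B hB => hn _ ?_
        rw [Finset.mem_coe, Finset.mem_map]
        exact ⟨B, hB, rfl⟩)
    exact ⟨A, hA, fun B hB => hA2 ⟨B, hB⟩⟩
  refine ⟨Independence.result.2.1 hp, fun X _ _ hX => ⟨fseparable_of_p hp hX (Equiv.refl X), ?_⟩⟩
  refine not_frechetUrysohn fun hc => ?_
  have h1 := mk_le_aleph0_iff.2 hc
  rw [hX] at h1
  exact absurd aleph0_lt_aleph_one (not_lt.2 h1)

end Pool.Agent.Results.MP_1ca5ad_gt.Consistent
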